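import Mathlib

set_option autoImplicit false

open Set
open scoped RealInnerProductSpace

namespace Pool.Agent.Lib.MP_26bcd4_gt

variable {E : Type*} [NormedAddCommGroup E] [InnerProductSpace ℝ E]

/-- the direction `u` lights the point `x` of `K` -/
def Lights (K : Set E) (u x : E) : Prop :=
  ∃ ε : ℝ, 0 < ε ∧ ε < 1 ∧ x + ε • u ∈ interior K

theorem isOpen_lights (K : Set E) (u : E) : IsOpen {x | Lights K u x} := by
  have : {x | Lights K u x} = ⋃ ε ∈ Ioo (0 : ℝ) 1, (fun x => x + ε • u) ⁻¹' interior K := by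
    ext x
    simp only [Lights, mem_ofPred_eq, mem_iUnion, mem_Ioo, mem_preimage]
    constructor
    · rintro ⟨ε, h0, h1, h⟩
      exact ⟨ε, ⟨h0, h1⟩, h⟩
    · rintro ⟨ε, ⟨h0, h1⟩, h⟩
      exact ⟨ε, h0, h1, h⟩
  rw [this]
  refine isOpen_biUnion fun ε _ => ?_
  exact isOpen_interior.preimage (by fun_prop)

/-- From a family lighting the whole boundary, no member of which lights two points of `W`,
one extracts a finite minimal lighting family with at least `W.card` members. -/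
theorem exists_minimal (K : Set E) (hK : IsCompact K) (F : Set E)
    (hF : ∀ x ∈ frontier K, ∃ u ∈ F, Lights K u x) (W : Finset E)
    (hW : ∀ w ∈ W, w ∈ frontier K)
    (hsep : ∀ u ∈ F, ∀ w ∈ W, ∀ w' ∈ W, Lights K u w → Lights K u w' → w = w') :
    ∃ U : Finset E, (U : Set E) ⊆ F ∧ (∀ x ∈ frontier K, ∃ u ∈ U, Lights K u x) ∧
      (∀ B : Set E, B ⊆ U → B ≠ U → ¬ ∀ x ∈ frontier K, ∃ u ∈ B, Lights K u x) ∧
      W.card ≤ U.card := by
  classical
  have hfr : IsCompact (frontier K) :=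
    hK.of_isClosed_subset isClosed_frontier hK.isClosed.frontier_subset
  obtain ⟨T, hTF, hTfin, hT⟩ := hfr.elim_finite_subcover_image (b := F)
    (c := fun u => {x | Lights K u x}) (fun u _ => isOpen_lights K u) (by
      intro x hx
      obtain ⟨u, hu, h⟩ := hF x hx
      exact mem_biUnion hu h)
  have hex : ∃ n : ℕ, ∃ U : Finset E, U.card = n ∧ (U : Set E) ⊆ F ∧
      ∀ x ∈ frontier K, ∃ u ∈ U, Lights K u x := by
    refine ⟨_, hTfin.toFinset, rfl, by simpa using hTF, fun x hx => ?_⟩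
    have := hT hx
    simp only [mem_iUnion, mem_ofPred_eq] at this
    obtain ⟨u, hu, h⟩ := this
    exact ⟨u, by simpa using hu, h⟩
  obtain ⟨U, hUc, hUF, hU⟩ := Nat.find_spec hex
  refine ⟨U, hUF, hU, ?_, ?_⟩
  · intro B hBU hne hB
    have hBfin : B.Finite := U.finite_toSet.subset hBU
    have hlt : hBfin.toFinset.card < U.card := by
      apply Finset.card_lt_card
      rw [Finset.ssubset_iff_subset_ne]
      refine ⟨fun x hx => ?_, fun h => hne ?_⟩
      · exact hBU (by simpa using hx)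
      · rw [← h]; simp
    rw [hUc] at hlt
    refine Nat.find_min hex hlt ⟨hBfin.toFinset, rfl, ?_, fun x hx => ?_⟩
    · intro x hx
      exact hUF (hBU (by simpa using hx))
    · obtain ⟨u, hu, h⟩ := hB x hx
      exact ⟨u, by simpa using hu, h⟩
  · choose! f hfU hf using fun w (hw : w ∈ W) => hU w (hW w hw)
    refine Finset.card_le_card_of_injOn f (fun w hw => hfU w hw) ?_
    intro w hw w' hw' h
    refine hsep (f w) (hUF (hfU w hw)) w hw w' hw' (hf w hw) ?_
    rw [h]
    exact hf w' hw'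

/-- horizontal part -/
noncomputable def hor (e y : E) : E := y - ⟪e, y⟫ • e

/-- the solid circular cone with axis `e` -/
def cone (e : E) : Set E := {y | 0 ≤ ⟪e, y⟫ ∧ ‖hor e y‖ + ⟪e, y⟫ ≤ 1}

theorem hor_add (e x y : E) : hor e (x + y) = hor e x + hor e y := by
  simp only [hor, inner_add_right, add_smul]; abel

theorem hor_smul (e x : E) (c : ℝ) : hor e (c • x) = c • hor e x := by
  simp only [hor, inner_smul_right, smul_sub, mul_smul]

theorem hor_self {e : E} (he : ‖e‖ = 1) : hor e e = 0 := by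
  simp [hor, he]

theorem hor_of_orth {e w : E} (hw : ⟪e, w⟫ = 0) : hor e w = w := by
  simp [hor, hw]

theorem continuous_hor (e : E) : Continuous (hor e) := by
  unfold hor; fun_prop

theorem isClosed_cone (e : E) : IsClosed (cone e) := by
  have h1 : Continuous fun y : E => ⟪e, y⟫ := by fun_prop
  have h2 : Continuous fun y : E => ‖hor e y‖ + ⟪e, y⟫ := ((continuous_hor e).norm).add h1
  exact (isClosed_le continuous_const h1).inter (isClosed_le h2 continuous_const)

theorem convex_cone (e : E) : Convex ℝ (cone e) := by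
  intro x hx y hy a b ha hb hab
  obtain ⟨hx0, hx1⟩ := hx
  obtain ⟨hy0, hy1⟩ := hy
  have hi : ⟪e, a • x + b • y⟫ = a * ⟪e, x⟫ + b * ⟪e, y⟫ := by
    simp [inner_add_right, inner_smul_right]
  refine ⟨by rw [hi]; positivity, ?_⟩
  rw [hi, hor_add, hor_smul, hor_smul]
  have h1 : ‖a • hor e x + b • hor e y‖ ≤ a * ‖hor e x‖ + b * ‖hor e y‖ := by
    refine (norm_add_le _ _).trans ?_
    rw [norm_smul, norm_smul, Real.norm_of_nonneg ha, Real.norm_of_nonneg hb]
  nlinarith [mul_le_mul_of_nonneg_left hx1 ha, mul_le_mul_of_nonneg_left hy1 hb]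

theorem isCompact_cone [ProperSpace E] {e : E} (he : ‖e‖ = 1) : IsCompact (cone e) := by
  refine Metric.isCompact_of_isClosed_isBounded (isClosed_cone e) ?_
  refine (Metric.isBounded_closedBall (x := (0 : E)) (r := 1)).subset ?_
  rintro y ⟨h0, h1⟩
  rw [mem_closedBall_zero_iff]
  have : y = hor e y + ⟪e, y⟫ • e := by simp [hor]
  calc ‖y‖ = ‖hor e y + ⟪e, y⟫ • e‖ := by rw [← this]
    _ ≤ ‖hor e y‖ + ‖⟪e, y⟫ • e‖ := norm_add_le _ _
    _ = ‖hor e y‖ + ⟪e, y⟫ := by rw [norm_smul, he, mul_one, Real.norm_of_nonneg h0]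
    _ ≤ 1 := h1

theorem mem_interior_cone {e y : E} (h0 : 0 < ⟪e, y⟫) (h1 : ‖hor e y‖ + ⟪e, y⟫ < 1) :
    y ∈ interior (cone e) := by
  have c1 : Continuous fun y : E => ⟪e, y⟫ := by fun_prop
  have c2 : Continuous fun y : E => ‖hor e y‖ + ⟪e, y⟫ := ((continuous_hor e).norm).add c1
  have ho : IsOpen {y : E | 0 < ⟪e, y⟫ ∧ ‖hor e y‖ + ⟪e, y⟫ < 1} :=
    (isOpen_lt continuous_const c1).inter (isOpen_lt c2 continuous_const)
  have hsub : {y : E | 0 < ⟪e, y⟫ ∧ ‖hor e y‖ + ⟪e, y⟫ < 1} ⊆ cone e :=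
    fun z hz => ⟨hz.1.le, hz.2.le⟩
  exact interior_maximal hsub ho ⟨h0, h1⟩

theorem lt_of_mem_interior_cone {e y : E} (he : ‖e‖ = 1) (hy : y ∈ interior (cone e)) :
    ‖hor e y‖ + ⟪e, y⟫ < 1 := by
  have hc : Continuous fun s : ℝ => y + s • e := by fun_prop
  have ho : IsOpen ((fun s : ℝ => y + s • e) ⁻¹' interior (cone e)) := isOpen_interior.preimage hc
  have h0 : (0 : ℝ) ∈ ((fun s : ℝ => y + s • e) ⁻¹' interior (cone e)) := by simpa using hy
  obtain ⟨δ, hδ, hb⟩ := Metric.isOpen_iff.1 ho 0 h0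
  have : (δ / 2) ∈ Metric.ball (0 : ℝ) δ := by
    rw [mem_ball_zero_iff, Real.norm_of_nonneg (by positivity)]; linarith
  have h2 := (interior_subset (hb this)).2
  simp only [hor_add, hor_smul, hor_self he, smul_zero, add_zero, inner_add_right,
    inner_smul_right, real_inner_self_eq_norm_sq, he] at h2
  linarith

theorem interior_cone_nonempty {e : E} (he : ‖e‖ = 1) : (interior (cone e)).Nonempty := by
  refine ⟨(1 / 2 : ℝ) • e, mem_interior_cone ?_ ?_⟩
  · simp [inner_smul_right, he]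
  · simp only [hor_smul, hor_self he, smul_zero, norm_zero, inner_smul_right,
      real_inner_self_eq_norm_sq, he]
    norm_num

theorem rim_mem_frontier {e w : E} (he : ‖e‖ = 1) (hw : ‖w‖ = 1) (hew : ⟪e, w⟫ = 0) :
    w ∈ frontier (cone e) := by
  rw [(isClosed_cone e).frontier_eq]
  refine ⟨⟨hew.ge, by rw [hor_of_orth hew, hw, hew]; norm_num⟩, fun h => ?_⟩
  have := lt_of_mem_interior_cone he h
  rw [hor_of_orth hew, hw, hew] at this
  linarith

/-- the allowed directions -/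
def fam (e : E) (s : ℝ) : Set E :=
  {u | ‖u‖ = 1 ∧ (u = -e ∨ s * ‖hor e u‖ ≤ ⟪e, u⟫)}

theorem lights_rim {e w u : E} (he : ‖e‖ = 1) (hw : ‖w‖ = 1) (hew : ⟪e, w⟫ = 0)
    (h : Lights (cone e) u w) : 0 ≤ ⟪e, u⟫ ∧ ⟪w, hor e u⟫ + ⟪e, u⟫ < 0 := by
  obtain ⟨ε, h0, -, h⟩ := h
  have h1 := (interior_subset h).1
  have h2 := lt_of_mem_interior_cone he h
  simp only [inner_add_right, inner_smul_right, hew, zero_add, hor_add, hor_smul,
    hor_of_orth hew] at h1 h2
  refine ⟨by by_contra hh; push Not at hh; nlinarith, ?_⟩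
  have h3 : ⟪w, w + ε • hor e u⟫ ≤ ‖w + ε • hor e u‖ := by
    have := real_inner_le_norm w (w + ε • hor e u)
    rwa [hw, one_mul] at this
  rw [inner_add_right, inner_smul_right, real_inner_self_eq_norm_sq, hw] at h3
  by_contra hh
  push Not at hh
  nlinarith

theorem sep_rim {e w w' u : E} {s : ℝ} (he : ‖e‖ = 1) (hw : ‖w‖ = 1) (hew : ⟪e, w⟫ = 0)
    (hw' : ‖w'‖ = 1) (hew' : ⟪e, w'⟫ = 0) (hu : u ∈ fam e s)
    (h : Lights (cone e) u w) (h' : Lights (cone e) u w') : 2 * s < ‖w + w'‖ := by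
  obtain ⟨a0, a1⟩ := lights_rim he hw hew h
  obtain ⟨-, a2⟩ := lights_rim he hw' hew' h'
  obtain ⟨-, hu | hu⟩ := hu
  · rw [hu, inner_neg_right, real_inner_self_eq_norm_sq, he] at a0
    norm_num at a0
  · have h3 : -⟪w + w', hor e u⟫ ≤ ‖w + w'‖ * ‖hor e u‖ := by
      have := real_inner_le_norm (w + w') (-hor e u)
      rwa [inner_neg_right, norm_neg] at this
    rw [inner_add_left] at h3
    by_contra hh
    push Not at hh
    have := mul_le_mul_of_nonneg_right hh (norm_nonneg (hor e u))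
    nlinarith

theorem fam_lights {e v₀ : E} {s : ℝ} (he : ‖e‖ = 1) (hv : ‖v₀‖ = 1) (hev : ⟪e, v₀⟫ = 0)
    (hs0 : 0 < s) (hs1 : s < 1) : ∀ x ∈ frontier (cone e), ∃ u ∈ fam e s, Lights (cone e) u x := by
  intro x hx
  obtain ⟨h0, h1⟩ := (isClosed_cone e).frontier_subset hx
  have hee : ⟪e, e⟫ = (1 : ℝ) := by rw [real_inner_self_eq_norm_sq, he]; norm_num
  -- the normalised direction attached to a horizontal unit vector
  have key : ∀ v : E, ‖v‖ = 1 → ⟪e, v⟫ = 0 → ∀ η : ℝ, 0 < η → η < 1 / 2 →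
      x + η • (s • e - v) ∈ interior (cone e) → ∃ u ∈ fam e s, Lights (cone e) u x := by
    intro v hv hev η hη0 hη1 hmem
    have hne : s • e - v ≠ 0 := by
      intro h
      have : ⟪e, s • e - v⟫ = (0 : ℝ) := by rw [h, inner_zero_right]
      rw [inner_sub_right, inner_smul_right, hee, hev] at this
      linarith
    have hpos : 0 < ‖s • e - v‖ := norm_pos_iff.2 hne
    have hle : ‖s • e - v‖ ≤ 2 := by
      refine (norm_sub_le _ _).trans ?_
      rw [norm_smul, he, hv, Real.norm_of_nonneg hs0.le]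
      linarith
    refine ⟨‖s • e - v‖⁻¹ • (s • e - v), ⟨?_, Or.inr ?_⟩, η * ‖s • e - v‖, by positivity,
      by nlinarith, ?_⟩
    · rw [norm_smul, norm_inv, norm_norm, inv_mul_cancel₀ hpos.ne']
    · have : hor e (s • e - v) = -v := by
        rw [sub_eq_add_neg, hor_add, hor_smul, hor_self he, hor_of_orth (by simp [hev])]
        simp
      rw [hor_smul, this, norm_smul, norm_neg, hv, inner_smul_right, inner_sub_right,
        inner_smul_right, hee, hev, norm_inv, norm_norm]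
      apply le_of_eq
      ring
    · rw [smul_smul, mul_assoc, mul_inv_cancel₀ hpos.ne', mul_one]
      exact hmem
  have hhor : ∀ v : E, ⟪e, v⟫ = 0 → ∀ η : ℝ,
      hor e (x + η • (s • e - v)) = hor e x - η • v := by
    intro v hev η
    have : hor e (s • e - v) = -v := by
      rw [sub_eq_add_neg, hor_add, hor_smul, hor_self he, hor_of_orth (by simp [hev])]
      simp
    rw [hor_add, hor_smul, this, smul_neg, sub_eq_add_neg]
  have hin : ∀ v : E, ⟪e, v⟫ = 0 → ∀ η : ℝ,
      ⟪e, x + η • (s • e - v)⟫ = ⟪e, x⟫ + η * s := by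
    intro v hev η
    rw [inner_add_right, inner_smul_right, inner_sub_right, inner_smul_right, hee, hev]
    ring
  rcases h0.lt_or_eq with h0 | h0
  · refine ⟨-e, ⟨by rw [norm_neg, he], Or.inl rfl⟩, ⟪e, x⟫ / 2, by positivity,
      by linarith [norm_nonneg (hor e x)], mem_interior_cone ?_ ?_⟩
    · rw [inner_add_right, inner_smul_right, inner_neg_right, hee]; linarith
    · rw [inner_add_right, inner_smul_right, inner_neg_right, hee, hor_add, hor_smul,
        ← neg_one_smul ℝ e, hor_smul, hor_self he]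
      simp only [smul_zero, add_zero]
      linarith
  · rw [← h0, add_zero] at h1
    rcases h1.lt_or_eq with h1 | h1
    · have hn := norm_nonneg (hor e x)
      refine key v₀ hv hev ((1 - ‖hor e x‖) / 4) (by linarith) (by linarith)
        (mem_interior_cone ?_ ?_)
      · rw [hin v₀ hev, ← h0]; have : 0 < 1 - ‖hor e x‖ := by linarith
        positivity
      · rw [hin v₀ hev, hhor v₀ hev, ← h0]
        have h2 : ‖hor e x - ((1 - ‖hor e x‖) / 4) • v₀‖ ≤ ‖hor e x‖ + (1 - ‖hor e x‖) / 4 := by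
          refine (norm_sub_le _ _).trans ?_
          rw [norm_smul, hv, Real.norm_of_nonneg (by linarith), mul_one]
        nlinarith
    · have hx0 : hor e x = x := hor_of_orth h0.symm
      rw [hx0] at h1
      refine key x h1 h0.symm (1 / 4) (by norm_num) (by norm_num) (mem_interior_cone ?_ ?_)
      · rw [hin x h0.symm, ← h0]; positivity
      · rw [hin x h0.symm, hhor x h0.symm, ← h0, hx0]
        have : x - (1 / 4 : ℝ) • x = (3 / 4 : ℝ) • x := by module
        rw [this, norm_smul, h1, Real.norm_of_nonneg (by norm_num)]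
        linarith

theorem exists_large [ProperSpace E] {e a b : E} (he : ‖e‖ = 1) (ha : ‖a‖ = 1) (hb : ‖b‖ = 1)
    (hea : ⟪e, a⟫ = 0) (heb : ⟪e, b⟫ = 0) (hab : ⟪a, b⟫ = 0) (m : ℕ) :
    ∃ U : Finset E, (∀ u ∈ U, ‖u‖ = 1) ∧ (∀ x ∈ frontier (cone e), ∃ u ∈ U, Lights (cone e) u x) ∧
      (∀ B : Set E, B ⊆ U → B ≠ U → ¬ ∀ x ∈ frontier (cone e), ∃ u ∈ B, Lights (cone e) u x) ∧
      m ≤ U.card := by
  classical
  let t : ℕ → ℝ := fun k => 1 / ((k : ℝ) + 1)
  let w : ℕ → E := fun k => t k • a + √(1 - t k ^ 2) • b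
  have ht0 : ∀ k, 0 < t k := fun k => by positivity
  have ht1 : ∀ k, t k ≤ 1 := fun k => by
    have : (0 : ℝ) ≤ k := Nat.cast_nonneg k
    show 1 / ((k : ℝ) + 1) ≤ 1
    rw [div_le_one (by linarith)]; linarith
  have haa : ⟪a, a⟫ = (1 : ℝ) := by rw [real_inner_self_eq_norm_sq, ha]; norm_num
  have hbb : ⟪b, b⟫ = (1 : ℝ) := by rw [real_inner_self_eq_norm_sq, hb]; norm_num
  have hba : ⟪b, a⟫ = (0 : ℝ) := by rw [real_inner_comm, hab]
  have hwn : ∀ k, ‖w k‖ = 1 := fun k => by
    have h1 : 0 ≤ 1 - t k ^ 2 := by nlinarith [ht0 k, ht1 k]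
    have h2 : ‖w k‖ ^ 2 = 1 := by
      rw [← real_inner_self_eq_norm_sq]
      simp only [w, inner_add_left, inner_add_right, inner_smul_left, inner_smul_right, haa, hbb,
        hab, hba, conj_trivial]
      nlinarith [Real.mul_self_sqrt h1]
    nlinarith [norm_nonneg (w k)]
  have hwe : ∀ k, ⟪e, w k⟫ = (0 : ℝ) := fun k => by
    simp only [w, inner_add_right, inner_smul_right, hea, heb]; ring
  have hwa : ∀ k, ⟪a, w k⟫ = t k := fun k => by
    simp only [w, inner_add_right, inner_smul_right, haa, hab]; ring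
  have hinj : Function.Injective w := by
    intro k l h
    have : t k = t l := by rw [← hwa, ← hwa, h]
    simp only [t, one_div, inv_inj, add_left_inj, Nat.cast_inj] at this
    exact this
  let W : Finset E := (Finset.range m).image w
  have hWc : W.card = m := by
    rw [Finset.card_image_of_injective _ hinj, Finset.card_range]
  have hWn : ∀ x ∈ W, ‖x‖ = 1 ∧ ⟪e, x⟫ = (0 : ℝ) := by
    intro x hx
    obtain ⟨k, -, rfl⟩ := Finset.mem_image.1 hx
    exact ⟨hwn k, hwe k⟩
  obtain ⟨s, hs0, hs1, hs⟩ : ∃ s : ℝ, 0 < s ∧ s < 1 ∧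
      ∀ p ∈ (W ×ˢ W).filter (fun p : E × E => p.1 ≠ p.2), ‖p.1 + p.2‖ ≤ 2 * s := by
    have hlt : ∀ p ∈ (W ×ˢ W).filter (fun p : E × E => p.1 ≠ p.2), ‖p.1 + p.2‖ < 2 := by
      intro p hp
      rw [Finset.mem_filter, Finset.mem_product] at hp
      obtain ⟨⟨h1, h2⟩, h3⟩ := hp
      have e1 := (hWn _ h1).1
      have e2 := (hWn _ h2).1
      have hpar := parallelogram_law_with_norm ℝ p.1 p.2
      have hpos : 0 < ‖p.1 - p.2‖ := norm_pos_iff.2 (sub_ne_zero.2 h3)
      rw [e1, e2] at hpar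
      nlinarith [norm_nonneg (p.1 + p.2)]
    generalize (W ×ˢ W).filter (fun p : E × E => p.1 ≠ p.2) = S at hlt
    induction S using Finset.induction_on with
    | empty => exact ⟨1 / 2, by norm_num, by norm_num, by simp⟩
    | insert q S hq ih =>
      obtain ⟨s, h0, h1, h⟩ := ih fun p hp => hlt p (Finset.mem_insert_of_mem hp)
      have hq2 := hlt q (Finset.mem_insert_self _ _)
      refine ⟨max s (‖q.1 + q.2‖ / 2), lt_max_of_lt_left h0, max_lt h1 (by linarith), ?_⟩
      intro p hp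
      rcases Finset.mem_insert.1 hp with rfl | hp
      · linarith [le_max_right s (‖p.1 + p.2‖ / 2)]
      · linarith [le_max_left s (‖q.1 + q.2‖ / 2), h p hp]
  obtain ⟨U, hUF, h1, h2, h3⟩ := exists_minimal (cone e) (isCompact_cone he) (fam e s)
    (fam_lights he ha hea hs0 hs1) W (fun x hx => rim_mem_frontier he (hWn x hx).1 (hWn x hx).2)
    (by
      intro u hu x hx y hy l1 l2
      by_contra hne
      have h4 := sep_rim he (hWn x hx).1 (hWn x hx).2 (hWn y hy).1 (hWn y hy).2 hu l1 l2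
      have h5 := hs (x, y) (by
        rw [Finset.mem_filter, Finset.mem_product]; exact ⟨⟨hx, hy⟩, hne⟩)
      simp only at h5
      linarith)
  exact ⟨U, fun u hu => (hUF hu).1, h1, h2, hWc ▸ h3⟩

end Pool.Agent.Lib.MP_26bcd4_gt
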