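import Pool.Agent.Lib.MP_26bcd4_gt.Cone

/-! Sums of segments with large primitive lighting families. -/

set_option autoImplicit false

open Set Filter
open scoped RealInnerProductSpace

namespace Pool.Agent.Lib.MP_26bcd4_gt

section General

variable {E : Type*} [NormedAddCommGroup E] [InnerProductSpace ℝ E] {ι : Type*} [Fintype ι]

/-- The sum of the segments from `-g i` to `g i`. -/
def zono (g : ι → E) : Set E := {x | ∃ c : ι → ℝ, (∀ i, |c i| ≤ 1) ∧ x = ∑ i, c i • g i}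

theorem zono_compact (g : ι → E) : IsCompact (zono g) := by
  have h1 : zono g = (fun c : ι → ℝ => ∑ i, c i • g i) '' (univ.pi fun _ => Icc (-1 : ℝ) 1) := by
    ext x
    constructor
    · rintro ⟨c, hc, h⟩
      exact ⟨c, fun i _ => abs_le.mp (hc i), h.symm⟩
    · rintro ⟨c, hc, rfl⟩
      exact ⟨c, fun i => abs_le.mpr (hc i trivial), rfl⟩
  rw [h1]
  exact (isCompact_univ_pi fun _ => isCompact_Icc).image (by fun_prop)

theorem zono_convex (g : ι → E) : Convex ℝ (zono g) := by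
  rintro _ ⟨c, hc, rfl⟩ _ ⟨c', hc', rfl⟩ s t hs ht hst
  refine ⟨fun i => s * c i + t * c' i, fun i => ?_, ?_⟩
  · have h1 := abs_le.mp (hc i)
    have h2 := abs_le.mp (hc' i)
    rw [abs_le]
    constructor <;> nlinarith
  · simp only [add_smul, mul_smul, Finset.sum_add_distrib, Finset.smul_sum]

theorem zono_move (g : ι → E) {c : ι → ℝ} (hc : ∀ i, |c i| ≤ 1) (i : ι) {s : ℝ} (hs : |s| ≤ 1) :
    ∑ j, c j • g j + (s - c i) • g i ∈ zono g := by
  classical
  refine ⟨fun j => c j + if j = i then s - c i else 0, fun j => ?_, ?_⟩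
  · by_cases h : j = i
    · simpa [h] using hs
    · simpa [h] using hc j
  · simp [add_smul, Finset.sum_add_distrib]

theorem zono_reindex (g : ι → E) {κ : Type*} [Fintype κ] (e : κ ≃ ι) :
    zono (g ∘ e) = zono g := by
  ext x
  constructor
  · rintro ⟨c, hc, rfl⟩
    exact ⟨c ∘ e.symm, fun i => hc _, Fintype.sum_equiv e _ _ fun i => by simp⟩
  · rintro ⟨c, hc, rfl⟩
    exact ⟨c ∘ e, fun i => hc _, (Fintype.sum_equiv e _ _ fun i => by simp).symm⟩

/-- The sign of a coefficient. -/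
noncomputable def sg (t : ℝ) : ℝ := if 0 ≤ t then 1 else -1

theorem abs_sg (t : ℝ) : |sg t| ≤ 1 := by
  unfold sg
  split_ifs <;> simp

theorem sg_cases (t : ℝ) : sg t = 1 ∨ sg t = -1 := by
  unfold sg
  split_ifs <;> simp

theorem sg_add {s t : ℝ} (h : 0 ≤ s * t) : 0 ≤ sg (s + t) * s ∧ 0 ≤ sg (s + t) * t := by
  unfold sg
  split_ifs with h0
  · constructor <;> nlinarith
  · constructor <;> nlinarith

theorem lights_of [CompleteSpace E] {g : ι → E} (hint : (interior (zono g)).Nonempty)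
    {c : ι → ℝ} {u : E} (hc : ∀ i, |c i| ≤ 1)
    (h : ∀ y : E, y ≠ 0 → (∀ i, 0 ≤ sg (c i) * ⟪g i, y⟫) → ⟪u, y⟫ < 0) :
    Lights (zono g) u (∑ i, c i • g i) := by
  have hm := fun i s hs => zono_move g hc i (s := s) hs
  have hx : ∑ i, c i • g i ∈ zono g := ⟨c, hc, rfl⟩
  generalize ∑ i, c i • g i = x at hm hx
  by_contra hn
  have hconv : Convex ℝ ((fun ε : ℝ => x + ε • u) '' Ioo (0 : ℝ) 1) := by
    have := (convex_Ioo (𝕜 := ℝ) (0 : ℝ) 1).affine_image (AffineMap.lineMap x (x + u))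
    refine (congrArg (Convex ℝ) (image_congr fun ε _ => ?_)).mp this
    simp [AffineMap.lineMap_apply, add_comm]
  obtain ⟨f, r, h1, h2⟩ := geometric_hahn_banach_open (zono_convex g).interior isOpen_interior
    hconv (by
      rw [Set.disjoint_right]
      rintro _ ⟨ε, hε, rfl⟩ hi
      exact hn ⟨ε, hε.1, hε.2, hi⟩)
  have h3 : ∀ z ∈ zono g, f z ≤ r := fun z hz =>
    closure_minimal (fun a ha => (h1 a ha).le) (isClosed_le f.continuous continuous_const)
      ((zono_convex g).closure_interior_eq_closure_of_nonempty_interior hint ▸ subset_closure hz)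
  have h4 : ∀ ε : ℝ, 0 < ε → ε < 1 → r ≤ f x + ε * f u := fun ε e0 e1 => by
    simpa using h2 _ ⟨ε, ⟨e0, e1⟩, rfl⟩
  have h5 := h3 x hx
  have h6 : 0 ≤ f u := by linarith [h4 (1 / 2) (by norm_num) (by norm_num)]
  have h7 : r ≤ f x := by
    by_contra hlt
    have hp : 0 < r - f x := by linarith
    have hq : 0 < 2 * (r - f x) + f u := by linarith
    have := h4 ((r - f x) / (2 * (r - f x) + f u)) (div_pos hp hq)
      (by rw [div_lt_one hq]; linarith)
    rw [div_mul_eq_mul_div, ← sub_le_iff_le_add', le_div_iff₀ hq] at this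
    nlinarith
  have hf : ∀ z, ⟪z, (InnerProductSpace.toDual ℝ E).symm f⟫ = f z := fun z => by
    rw [real_inner_comm, InnerProductSpace.toDual_symm_apply]
  refine absurd (h ((InnerProductSpace.toDual ℝ E).symm f) (fun h0 => ?_) fun i => ?_)
    (by rw [hf]; exact not_lt.mpr h6)
  · obtain ⟨a, ha⟩ := hint
    have := h1 a ha
    rw [← hf, h0, inner_zero_right] at this h7
    linarith
  · have hi := abs_le.mp (hc i)
    rw [hf, sg]
    split_ifs with h0
    · have := h3 _ (hm i (-1) (by simp))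
      rw [map_add, map_smul, smul_eq_mul] at this
      nlinarith
    · have := h3 _ (hm i 1 (by simp))
      rw [map_add, map_smul, smul_eq_mul] at this
      nlinarith

theorem not_interior {g : ι → E} {t : ι → ℝ} {y u : E} (hy : y ≠ 0)
    (h : ∀ i, 0 ≤ sg (t i) * ⟪g i, y⟫) (hu : 0 ≤ ⟪u, y⟫) {ε : ℝ} (hε : 0 ≤ ε) :
    ∑ i, sg (t i) • g i + ε • u ∉ interior (zono g) := by
  intro hi
  have h1 : zono g ⊆ innerSL ℝ y ⁻¹' Iic (innerSL ℝ y (∑ i, sg (t i) • g i)) := by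
    rintro _ ⟨c, hc, rfl⟩
    rw [mem_preimage, mem_Iic, map_sum, map_sum]
    refine Finset.sum_le_sum fun i _ => ?_
    have h2 := h i
    have h3 := abs_le.mp (hc i)
    simp only [map_smul, innerSL_apply_apply, smul_eq_mul, real_inner_comm (g i) y]
    rcases sg_cases (t i) with h4 | h4 <;> rw [h4] at h2 ⊢ <;> nlinarith
  have h4 : IsOpenMap (innerSL ℝ y) :=
    (innerSL ℝ y).isOpenMap_of_ne_zero fun h0 => hy (by simpa using DFunLike.congr_fun h0 y)
  have h5 := h4.interior_preimage_subset_preimage_interior (interior_mono h1 hi)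
  rw [interior_Iic, mem_preimage, mem_Iio, map_add, map_smul, smul_eq_mul] at h5
  have h6 : innerSL ℝ y u = ⟪u, y⟫ := real_inner_comm u y
  rw [h6] at h5
  linarith [mul_nonneg hε hu]

end General

/-- Positions of the second pencil of planes. -/
def pb (κ : ℝ) (m j : ℕ) : ℝ := 1 + m - j + κ * (j : ℝ) ^ 2

theorem key {Y : Type*} (S : Set Y) (α β ζ : Y → ℝ) {κ : ℝ} {m : ℕ} (k0 : 0 < κ)
    (k2 : κ * m ≤ 1 / 4) (k3 : κ * (m : ℝ) ^ 2 < 1 / 2)
    (hz : (∀ y ∈ S, 0 ≤ ζ y) ∨ ∀ y ∈ S, ζ y ≤ 0)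
    (hA : ∀ j ≤ m, (∀ y ∈ S, (1 + j) * ζ y ≤ α y) ∨ ∀ y ∈ S, α y ≤ (1 + j) * ζ y)
    (hB : ∀ j ≤ m, (∀ y ∈ S, pb κ m j * ζ y ≤ β y) ∨ ∀ y ∈ S, β y ≤ pb κ m j * ζ y) :
    ∃ (p q r : ℝ) (j : ℕ), (∀ y ∈ S, 0 ≤ p * α y + q * β y + r * ζ y) ∧ ∀ l ≤ m, l ≠ j →
      p * (1 + l) + q * pb κ m l + r < 0 ∨ p * l + q * (pb κ m l - 1 / 2) + r < 0 := by
  rcases hz with hz | hz
  swap
  · exact ⟨0, 0, -1, 0, fun y hy => by linarith [hz y hy], fun l _ _ => Or.inl (by norm_num)⟩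
  by_cases h1 : ∃ j ≤ m, (∀ y ∈ S, α y ≤ (1 + j) * ζ y) ∧ ∀ y ∈ S, β y ≤ pb κ m j * ζ y
  · obtain ⟨j, hj, h2, h3⟩ := h1
    have hj' : (j : ℝ) ≤ m := by exact_mod_cast hj
    have h4 : 0 ≤ 1 - 2 * κ * j := by nlinarith
    refine ⟨-(1 - 2 * κ * j), -1, (1 - 2 * κ * j) * (1 + j) + pb κ m j, j, fun y hy => ?_,
      fun l _ hl => Or.inl ?_⟩
    · linarith [mul_nonneg h4 (sub_nonneg.mpr (h2 y hy)), h3 y hy]
    · have h5 : (l : ℝ) - j ≠ 0 := sub_ne_zero.mpr (by exact_mod_cast hl)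
      rw [pb, pb]
      linarith [mul_pos k0 (sq_pos_of_ne_zero h5)]
  by_cases h2 : ∀ y ∈ S, (1 + m) * ζ y ≤ α y
  · refine ⟨1, 0, -(1 + m), m, fun y hy => by linarith [h2 y hy], fun l hl hl' => Or.inl ?_⟩
    have : (l : ℝ) < m := by exact_mod_cast lt_of_le_of_ne hl hl'
    linarith
  by_cases h3 : ∀ y ∈ S, pb κ m 0 * ζ y ≤ β y
  · refine ⟨0, 1, -pb κ m 0, 0, fun y hy => by linarith [h3 y hy], fun l hl hl' => Or.inl ?_⟩
    have l0 : (0 : ℝ) < l := by exact_mod_cast Nat.pos_of_ne_zero hl'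
    have l1 : (l : ℝ) ≤ m := by exact_mod_cast hl
    have l2 : κ * l < 1 := by nlinarith
    rw [pb, pb]
    push_cast
    nlinarith
  have h4 : ∀ j ≤ m, (∀ y ∈ S, (1 + j) * ζ y ≤ α y) ∨ ∀ y ∈ S, pb κ m j * ζ y ≤ β y := by
    intro j hj
    by_contra hn
    rw [not_or] at hn
    exact h1 ⟨j, hj, (hA j hj).resolve_left hn.1, (hB j hj).resolve_left hn.2⟩
  obtain ⟨i, hi, h5, h6⟩ : ∃ i : ℕ, i + 1 ≤ m ∧ (∀ y ∈ S, (1 + i) * ζ y ≤ α y) ∧
      ∀ y ∈ S, pb κ m (i + 1) * ζ y ≤ β y := by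
    by_contra hn
    have : ∀ i ≤ m, ∀ y ∈ S, (1 + i) * ζ y ≤ α y := by
      intro i
      induction i with
      | zero => exact fun hi => (h4 0 hi).resolve_right h3
      | succ i ih =>
        exact fun hi => (h4 _ hi).resolve_right fun h => hn ⟨i, hi, ih (by omega), h⟩
    exact h2 (this m le_rfl)
  refine ⟨1, 1, -(1 + m), 0, fun y hy => ?_, fun l hl _ => Or.inr ?_⟩
  · have h7 := h5 y hy
    have h8 := h6 y hy
    rw [pb] at h8
    push_cast at h8
    linarith [mul_nonneg (mul_nonneg k0.le (sq_nonneg ((i : ℝ) + 1))) (hz y hy)]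
  · have l1 : (l : ℝ) ≤ m := by exact_mod_cast hl
    have l2 := mul_le_mul_of_nonneg_left (pow_le_pow_left₀ l.cast_nonneg l1 2) k0.le
    rw [pb]
    linarith

theorem compat_a (j l : ℕ) : (0 : ℝ) ≤ (1 + j - (1 + l)) * (j - (1 + l)) := by
  rcases le_or_gt j l with h | h
  · have : (j : ℝ) ≤ l := by exact_mod_cast h
    exact mul_nonneg_of_nonpos_of_nonpos (by linarith) (by linarith)
  · have : (l : ℝ) + 1 ≤ j := by exact_mod_cast h
    exact mul_nonneg (by linarith) (by linarith)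

theorem compat_b {κ : ℝ} {m j l : ℕ} (k0 : 0 < κ) (k2 : κ * m ≤ 1 / 4) (hj : j ≤ m) (hl : l ≤ m) :
    0 ≤ (pb κ m j - pb κ m l) * (pb κ m j - 1 / 2 - pb κ m l) := by
  have h1 : (j : ℝ) ≤ m := by exact_mod_cast hj
  have h2 : (l : ℝ) ≤ m := by exact_mod_cast hl
  have h3 : 0 ≤ 1 / 2 - κ * (l + j) := by nlinarith
  rw [pb, pb]
  rcases le_or_gt l j with h | h
  · have h4 : (l : ℝ) ≤ j := by exact_mod_cast h
    have := mul_nonneg (sub_nonneg.mpr h4) h3
    exact mul_nonneg_of_nonpos_of_nonpos (by linarith) (by linarith)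
  · have h4 : (j : ℝ) + 1 ≤ l := by exact_mod_cast h
    have := mul_nonneg (show (0 : ℝ) ≤ l - j by linarith) h3
    exact mul_nonneg (by linarith) (by linarith)

theorem one_le_pb {κ : ℝ} {m j : ℕ} (k0 : 0 < κ) (hj : j ≤ m) : 1 ≤ pb κ m j := by
  have h1 : (j : ℝ) ≤ m := by exact_mod_cast hj
  rw [pb]
  linarith [mul_nonneg k0.le (sq_nonneg (j : ℝ))]

/-- The vector with the given first three coordinates. -/
noncomputable def vec (n : ℕ) (p q r : ℝ) : EuclideanSpace ℝ (Fin (n + 3)) :=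
  p • EuclideanSpace.single 0 1 + q • EuclideanSpace.single 1 1 + r • EuclideanSpace.single 2 1

theorem inner_vec (n : ℕ) (p q r : ℝ) (y : EuclideanSpace ℝ (Fin (n + 3))) :
    ⟪vec n p q r, y⟫ = p * y 0 + q * y 1 + r * y 2 := by
  simp [vec, inner_add_left, inner_smul_left, EuclideanSpace.inner_single_left]

theorem vec_vec (n : ℕ) (p q r a b c : ℝ) :
    ⟪vec n p q r, vec n a b c⟫ = p * a + q * b + r * c := by
  have h0 : 2 % (n + 3) = 2 := Nat.mod_eq_of_lt (by omega)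
  have h1 : (0 : Fin (n + 3)) ≠ 2 := by simp [Fin.ext_iff, h0]
  have h2 : (1 : Fin (n + 3)) ≠ 2 := by simp [Fin.ext_iff, h0]
  rw [inner_vec]
  simp [vec, h1, h2, h1.symm, h2.symm]

theorem vec_nonneg (n : ℕ) {a b c : ℝ} (ha : 0 ≤ a) (hb : 0 ≤ b) (hc : 0 ≤ c) (k : Fin (n + 3)) :
    0 ≤ vec n a b c k := by
  simp only [vec, PiLp.add_apply, PiLp.smul_apply, PiLp.single_apply, smul_eq_mul]
  positivity

theorem vec_ne (n : ℕ) (a b : ℝ) : vec n a b 1 ≠ 0 := fun h => by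
  have := vec_vec n 0 0 1 a b 1
  rw [h, inner_zero_right] at this
  norm_num at this

/-- The generators: the coordinate vectors and two families in two coordinate planes. -/
noncomputable def gen (n m : ℕ) (κ : ℝ) :
    Fin (n + 3) ⊕ Fin (m + 1) ⊕ Fin (m + 1) → EuclideanSpace ℝ (Fin (n + 3))
  | Sum.inl k => EuclideanSpace.single k 1
  | Sum.inr (Sum.inl j) => vec n 1 0 (-(1 + (j : ℕ)))
  | Sum.inr (Sum.inr j) => vec n 0 1 (-pb κ m j)

theorem gen_interior (n m : ℕ) (κ : ℝ) : (interior (zono (gen n m κ))).Nonempty := by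
  have h0 : (0 : EuclideanSpace ℝ (Fin (n + 3))) ∈ zono (gen n m κ) := ⟨0, by simp, by simp⟩
  rw [(zono_convex _).interior_nonempty_iff_affineSpan_eq_top,
    AffineSubspace.affineSpan_eq_top_iff_vectorSpan_eq_top_of_nonempty _ _ _ ⟨_, h0⟩, eq_top_iff,
    ← (EuclideanSpace.basisFun (Fin (n + 3)) ℝ).toBasis.span_eq, Submodule.span_le]
  rintro _ ⟨k, rfl⟩
  have h1 := zono_move (gen n m κ) (c := 0) (by simp) (Sum.inl k) (s := 1) (by simp)
  simpa [gen] using vsub_mem_vectorSpan ℝ h1 h0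

theorem zono_large (n m : ℕ) : ∃ κ : ℝ, ∃ U : Finset (EuclideanSpace ℝ (Fin (n + 3))),
    (∀ u ∈ U, ‖u‖ = 1) ∧
    (∀ x ∈ frontier (zono (gen n m κ)), ∃ u ∈ U, Lights (zono (gen n m κ)) u x) ∧
    (∀ B : Set (EuclideanSpace ℝ (Fin (n + 3))), B ⊆ U → B ≠ U →
      ¬ ∀ x ∈ frontier (zono (gen n m κ)), ∃ u ∈ B, Lights (zono (gen n m κ)) u x) ∧
    m + 1 ≤ U.card := by
  classical
  obtain ⟨κ, k0, k2, k3⟩ : ∃ κ : ℝ, 0 < κ ∧ κ * m ≤ 1 / 4 ∧ κ * (m : ℝ) ^ 2 < 1 / 2 := by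
    have h0 : (0 : ℝ) ≤ m := m.cast_nonneg
    have h1 : 1 / (2 * ((m : ℝ) + 1) ^ 2) * ((m : ℝ) + 1) ^ 2 = 1 / 2 := by field_simp
    have h2 : 0 < 1 / (2 * ((m : ℝ) + 1) ^ 2) := by positivity
    refine ⟨_, h2, ?_, ?_⟩
    · nlinarith [mul_nonneg h2.le (sq_nonneg ((m : ℝ) - 1))]
    · nlinarith [mul_nonneg h2.le h0]
  refine ⟨κ, ?_⟩
  have hint := gen_interior n m κ
  have hK := zono_compact (gen n m κ)
  set g := gen n m κ with hg
  let v : ℕ → EuclideanSpace ℝ (Fin (n + 3)) := fun j => vec n (1 + j) (pb κ m j) 1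
  let w : ℕ → EuclideanSpace ℝ (Fin (n + 3)) := fun j => vec n j (pb κ m j - 1 / 2) 1
  have hc : ∀ j ≤ m, ∀ i, 0 ≤ ⟪g i, v j⟫ * ⟪g i, w j⟫ := by
    intro j hj i
    have h1 := one_le_pb k0 hj
    rcases i with k | l | l
    · simp only [hg, gen, EuclideanSpace.inner_single_left, map_one, one_mul]
      exact mul_nonneg (vec_nonneg n (by positivity) (by linarith) zero_le_one k)
        (vec_nonneg n (by positivity) (by linarith) zero_le_one k)
    · simp only [hg, gen, v, w, vec_vec]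
      linarith [compat_a j l]
    · simp only [hg, gen, v, w, vec_vec]
      linarith [compat_b k0 k2 hj (Nat.lt_succ_iff.mp l.2)]
  let x : ℕ → EuclideanSpace ℝ (Fin (n + 3)) := fun j => ∑ i, sg (⟪g i, v j⟫ + ⟪g i, w j⟫) • g i
  have hv : ∀ j ≤ m, ∀ u, 0 ≤ ⟪u, v j⟫ ∨ 0 ≤ ⟪u, w j⟫ → ∀ ε : ℝ, 0 ≤ ε →
      x j + ε • u ∉ interior (zono g) := by
    rintro j hj u (h | h) ε hε
    · exact not_interior (vec_ne n _ _) (fun i => (sg_add (hc j hj i)).1) h hε
    · exact not_interior (vec_ne n _ _) (fun i => (sg_add (hc j hj i)).2) h hε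
  have hx : ∀ j ≤ m, x j ∈ frontier (zono g) := fun j hj =>
    ⟨subset_closure ⟨_, fun i => abs_sg _, rfl⟩, by simpa using hv j hj 0 (by simp) 0 le_rfl⟩
  let F : Set (EuclideanSpace ℝ (Fin (n + 3))) := {u | ‖u‖ = 1 ∧
    ∀ j ≤ m, ∀ l ≤ m, Lights (zono g) u (x j) → Lights (zono g) u (x l) → j = l}
  have hF : ∀ z ∈ frontier (zono g), ∃ u ∈ F, Lights (zono g) u z := by
    intro z hz
    obtain ⟨c, hc1, rfl⟩ := hK.isClosed.frontier_subset hz
    let S : Set (EuclideanSpace ℝ (Fin (n + 3))) := {y | ∀ i, 0 ≤ sg (c i) * ⟪g i, y⟫}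
    have hS : ∀ i, (∀ y ∈ S, 0 ≤ ⟪g i, y⟫) ∨ ∀ y ∈ S, ⟪g i, y⟫ ≤ 0 := fun i =>
      (sg_cases (c i)).imp (fun h y hy => by simpa [h] using hy i) fun h y hy => by
        simpa [h] using hy i
    obtain ⟨p, q, r, j, h1, h2⟩ := key S (fun y => y 0) (fun y => y 1) (fun y => y 2) k0 k2 k3
      (by simpa [hg, gen, EuclideanSpace.inner_single_left] using hS (Sum.inl 2))
      (fun j hj => (hS (Sum.inr (Sum.inl ⟨j, Nat.lt_succ_iff.mpr hj⟩))).imp
        (fun h y hy => by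
          have := h y hy
          simp only [hg, gen, inner_vec] at this
          linarith) fun h y hy => by
          have := h y hy
          simp only [hg, gen, inner_vec] at this
          linarith)
      fun j hj => (hS (Sum.inr (Sum.inr ⟨j, Nat.lt_succ_iff.mpr hj⟩))).imp
        (fun h y hy => by
          have := h y hy
          simp only [hg, gen, inner_vec] at this
          linarith) fun h y hy => by
          have := h y hy
          simp only [hg, gen, inner_vec] at this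
          linarith
    let ρ : EuclideanSpace ℝ (Fin (n + 3)) := ∑ k, sg (c (Sum.inl k)) • g (Sum.inl k)
    have hρ : ∀ y ∈ S, y ≠ 0 → 0 < ⟪ρ, y⟫ := by
      intro y hy h0
      obtain ⟨k, hk⟩ : ∃ k, y k ≠ 0 := by
        by_contra h
        exact h0 (by ext k; simpa using not_exists.mp h k)
      simp only [ρ, sum_inner, real_inner_smul_left]
      refine Finset.sum_pos' (fun k _ => hy _) ⟨k, Finset.mem_univ _, (hy _).lt_of_ne' ?_⟩
      rcases sg_cases (c (Sum.inl k)) with h | h <;>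
        simpa [h, hg, gen, EuclideanSpace.inner_single_left] using hk
    have ev : ∀ a b : ℝ, a < 0 → ∀ᶠ M in atTop, M * a + b ≤ 0 := fun a b ha =>
      (eventually_ge_atTop (b / -a)).mono fun M hM => by
        rw [div_le_iff₀ (by linarith)] at hM
        linarith
    obtain ⟨M, M0, hM⟩ : ∃ M : ℝ, 0 ≤ M ∧ ∀ l ∈ Finset.range (m + 1), l ≠ j →
        M * ⟪vec n p q r, v l⟫ + ⟪ρ, v l⟫ ≤ 0 ∨ M * ⟪vec n p q r, w l⟫ + ⟪ρ, w l⟫ ≤ 0 := by
      refine ((eventually_ge_atTop 0).and ((eventually_all_finset _).mpr fun l hl => ?_)).exists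
      by_cases hlj : l = j
      · exact Eventually.of_forall fun _ h => absurd hlj h
      rcases h2 l (Nat.lt_succ_iff.mp (Finset.mem_range.mp hl)) hlj with h | h
      · exact (ev _ _ (by simpa only [v, vec_vec, mul_one] using h)).mono fun _ h _ => Or.inl h
      · exact (ev _ _ (by simpa only [w, vec_vec, mul_one] using h)).mono fun _ h _ => Or.inr h
    have hin : ∀ y, ⟪M • vec n p q r + ρ, y⟫ = M * ⟪vec n p q r, y⟫ + ⟪ρ, y⟫ := fun y => by
      rw [inner_add_left, real_inner_smul_left]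
    generalize M • vec n p q r + ρ = a at hin
    have hl : ∀ t : ℝ, 0 < t → Lights (zono g) (-(t • a)) (∑ i, c i • g i) := fun t ht =>
      lights_of hint hc1 fun y h0 hy => by
        rw [inner_neg_left, real_inner_smul_left, hin, inner_vec, neg_lt_zero]
        exact mul_pos ht (add_pos_of_nonneg_of_pos (mul_nonneg M0 (h1 y hy)) (hρ y hy h0))
    have ha : 0 < ‖a‖ := norm_pos_iff.mpr fun h => by
      obtain ⟨ε, -, -, h3⟩ := hl 1 one_pos
      exact hz.2 (by simpa [h] using h3)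
    have key2 : ∀ l ≤ m, Lights (zono g) (-(‖a‖⁻¹ • a)) (x l) → l = j := by
      rintro l hl ⟨ε, e0, -, h3⟩
      by_contra hlj
      refine hv l hl _ ((hM l (Finset.mem_range.mpr (Nat.lt_succ_iff.mpr hl)) hlj).imp ?_ ?_) ε
        e0.le h3 <;>
      · intro h
        rw [inner_neg_left, real_inner_smul_left, hin, neg_nonneg]
        exact mul_nonpos_of_nonneg_of_nonpos (inv_nonneg.mpr ha.le) h
    exact ⟨_, ⟨by rw [norm_neg, norm_smul, norm_inv, norm_norm, inv_mul_cancel₀ ha.ne'],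
      fun j' hj l hl h3 h4 => (key2 j' hj h3).trans (key2 l hl h4).symm⟩,
      hl _ (inv_pos.mpr ha)⟩
  have hr : ∀ j ∈ Finset.range (m + 1), j ≤ m := fun j hj =>
    Nat.lt_succ_iff.mp (Finset.mem_range.mp hj)
  obtain ⟨U, hUF, h1, h2, h3⟩ := exists_minimal (zono g) hK F hF ((Finset.range (m + 1)).image x)
    (by
      intro z hz
      obtain ⟨j, hj, rfl⟩ := Finset.mem_image.mp hz
      exact hx j (hr j hj))
    (by
      intro u hu z hz z' hz' l1 l2
      obtain ⟨j, hj, rfl⟩ := Finset.mem_image.mp hz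
      obtain ⟨l, hl, rfl⟩ := Finset.mem_image.mp hz'
      rw [hu.2 j (hr j hj) l (hr l hl) l1 l2])
  rw [Finset.card_image_of_injOn, Finset.card_range] at h3
  · exact ⟨U, fun u hu => (hUF hu).1, h1, h2, h3⟩
  · intro j hj l hl h
    obtain ⟨u, hu, h4⟩ := hF _ (hx j (hr j hj))
    exact hu.2 j (hr j hj) l (hr l hl) h4 (h ▸ h4)

end Pool.Agent.Lib.MP_26bcd4_gt
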